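import Pool.Agent.Work.MP_a8adbc_co.Strong

/-! A graph that is strongly equistable together with its complement and is not a general
partition graph. -/

set_option autoImplicit false

namespace Pool.Agent.Results.MP_a8adbc_co.StrongExample

open Pool.Agent.Work.MP_a8adbc_co

section Defs

variable {V : Type} (H : SimpleGraph V)

/-- `S` is an inclusion-maximal stable set -/
def MaxStable (S : Finset V) : Prop := Maximal (fun s : Finset V => H.IsIndepSet (s : Set V)) S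

def Equistable : Prop :=
  ∃ φ : V → ℝ, (∀ v, 0 < φ v) ∧ ∀ S : Finset V, (MaxStable H S ↔ ∑ v ∈ S, φ v = 1)

def StronglyEquistable : Prop :=
  ∀ T : Finset V, T.Nonempty → ¬ MaxStable H T → ∀ γ : ℝ, γ ≤ 1 →
    ∃ φ : V → ℝ, (∀ v, 0 < φ v) ∧ (∀ S, MaxStable H S → ∑ v ∈ S, φ v = 1) ∧ ∑ v ∈ T, φ v ≠ γ

def GeneralPartition : Prop :=
  ∃ (U : Type) (_ : Finite U) (F : V → Set U), (∀ v, (F v).Nonempty) ∧
    (∀ u v, u ≠ v → (H.Adj u v ↔ (F u ∩ F v).Nonempty)) ∧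
    ∀ S, MaxStable H S → ∀ x : U, ∃! v, v ∈ S ∧ x ∈ F v

end Defs

theorem result : ∃ (V : Type) (_ : Finite V) (G : SimpleGraph V),
    (Equistable G ∧ Equistable Gᶜ) ∧ (StronglyEquistable G ∧ StronglyEquistable Gᶜ) ∧
      GeneralPartition Gᶜ ∧ ¬ GeneralPartition G := by
  have : Nonempty W := ⟨⟨((0, 0, 0), (0, 0, 1)), by decide⟩⟩
  refine ⟨V, inferInstance, G, ⟨G_equi, compl_equi⟩,
    ⟨G_strong, orlin_strong Gᶜ FW FW_ne (fun x y h => (FW_adj x y h.ne).1 h) FW_part⟩,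
    ⟨W, inferInstance, FW, FW_ne, FW_adj, FW_part⟩, ?_⟩
  rintro ⟨U, -, F, h1, -, h3⟩
  exact not_gp' F h1 h3

end Pool.Agent.Results.MP_a8adbc_co.StrongExample
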